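import Pool.Agent.Lib.MP_15d71b_an.G7

/-!
# Primariness of an ESA space means absorption of the complemented subspaces of its zero-sum block spaces

For a partition `τ` of `ℕ` into successive intervals let `K_τ` (`zeroSumSpace e τ`) be the closed span of
the differences `e_i - e_i'` with `i, i'` in the same interval; it has an unconditional decomposition
into the finite-dimensional zero-sum spaces of the intervals. If the differences `e_{2j} - e_{2j+1}`
have no lower `ℓ_1` estimate and unbounded sums (i.e. outside of the two classical cases of `ℓ_1` and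
`c_0`), then `X` is primary if and only if `X × W ≃ X` for all complemented subspaces `W` of all
`K_τ`.

Idea of the proof. Every decomposition `X = Y ⊕ Z` comes from a decomposition `K_τ = W ⊕ V` with
`Y ≃ X × W`, `Z ≃ V` (or with `Y`, `Z` exchanged), see `Decompositions`; this gives one direction.
Conversely `X ≃ X × K_τ ≃ (X × W) × V`, so if `X` is primary, then `X × W ≃ X` or `V ≃ X`. The latter is
impossible: `X` does not embed into `K_τ`. Let `A : X → K_τ` be an embedding. Along a subsequence
`A e_{n_j} ≈ γ_0 + ... + γ_{j-1} + v_j` with zero-sum vectors `γ_i`, `v_i` on successive intervals; these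
are suppression unconditional, since collapsing an interval to a point is a contraction. Alternating
sums give `‖∑_{j<m} v_{2j+1}‖ ≤ ‖A‖ ‖D_m‖ + 2`, `D_m = ∑_{j<m} (e_{2j} - e_{2j+1})`, averages give that the
`γ_i` are `c_0`-like. Splitting each step of `D_m` into `N` equal steps does not change its norm; its
image under `A` has norm at most `(2/N)(‖A‖ ‖D_{2mN}‖ + 2) + K + 2`, and `‖D_M‖ / M → 0`. So `‖D_m‖` is
bounded, a contradiction.
-/

set_option autoImplicit false

namespace Pool.Agent.Results.MP_15d71b_an.AbsorptionCriterion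

open Pool.Agent.MP_15d71b_an

/-- A space with an ESA basis is primary if and only if it absorbs the complemented subspaces of its
zero-sum block spaces (outside of the `ℓ_1` and `c_0` cases). -/
theorem result (X : Type) [NormedAddCommGroup X] [NormedSpace ℝ X] [CompleteSpace X] (e : ℕ → X)
    (h : ESA e) (hl1 : NoL1 e) (hc0 : NoC0 e) : Primary X ↔ Absorbs e := by
  refine ⟨fun hprim τ hτ W V hWV => ?_, fun habs Y Z hYZ => ?_⟩
  · exact absorb_of_primary h hl1 hc0 (fun Y Z h1 h2 h3 => hprim Y Z ⟨h1, h2, h3⟩) hτ.1 hτ.2 W V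
      hWV.1 hWV.2.1 hWV.2.2
  · obtain ⟨τ, hτ, h0, W, V, hW, hV, hWV, hcase⟩ :=
      Pool.Agent.Lib.MP_15d71b_an.Sq.core_esa h Y Z hYZ.1 hYZ.2.1 hYZ.2.2
    obtain ⟨φ⟩ := habs τ ⟨hτ, h0⟩ W V ⟨hW, hV, hWV⟩
    rcases hcase with ⟨⟨ψ⟩, -⟩ | ⟨⟨ψ⟩, -⟩
    · exact Or.inl ⟨(ψ.trans φ).symm⟩
    · exact Or.inr ⟨(ψ.trans φ).symm⟩

end Pool.Agent.Results.MP_15d71b_an.AbsorptionCriterion
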