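import Pool.Agent.Lib.MP_15d71b_an.G6
import Pool.Agent.Lib.MP_15d71b_an.Statement
import Pool.Agent.Lib.MP_15d71b_an.Sq.A8

/-!
# All decompositions of an ESA space

For a partition `τ` of `ℕ` into successive intervals let `K_τ` (`zeroSumSpace e τ`) be the closed span of
the differences `e_i - e_i'` with `i, i'` in the same interval. For every ESA space `X` and every
decomposition `X = Y ⊕ Z` there are `τ` and a decomposition `K_τ = W ⊕ V` with `Y ≃ X × W`, `Z ≃ V`
or `Z ≃ X × W`, `Y ≃ V`, and every decomposition `K_τ = W ⊕ V` occurs in this way.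

Idea of the proof. Monotone maps `r : ℕ → ℕ` act by contractions `e_i ↦ e_{r i}`. Let `P` be the
projection onto `Y` along `Z`. With tail sums and ultrafilter limits one finds `γ` and, after passing
to a subsequence, a block sum operator `M` and `J e_j = e_{p_j}` with `M P J` close to `γ I`; for
`P` or `1 - P` the operator `M P J` is invertible. Then `E = P J (M P J)⁻¹ M` is a projection with
kernel `ker M`, `Y = E X ⊕ (Y ∩ ker M)`, and `W = Y ∩ ker M` is complemented in `ker M` by the kernel `V`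
of `P - E P`, `V ≃ Z`. Finally `ker M ≃ K_τ` for some `τ`. Conversely
`X ≃ X × K_τ ≃ (X × W) × V`.
-/

set_option autoImplicit false

namespace Pool.Agent.Results.MP_15d71b_an.Decompositions

open Pool.Agent.MP_15d71b_an

/-- The decompositions of a space with an ESA basis are exactly the pairs `(X × W, V)` given by the
decompositions `W ⊕ V` of its zero-sum block spaces. -/
theorem result (X : Type) [NormedAddCommGroup X] [NormedSpace ℝ X] [CompleteSpace X] (e : ℕ → X)
    (h : ESA e) :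
    (∀ Y Z : Submodule ℝ X, IsDecomp Y Z → ComesFrom e Y Z ∨ ComesFrom e Z Y) ∧ Realizes e := by
  refine ⟨fun Y Z hYZ => ?_, fun τ hτ W V hWV => ?_⟩
  · obtain ⟨τ, hτ, h0, W, V, hW, hV, hWV, hcase⟩ :=
      Pool.Agent.Lib.MP_15d71b_an.Sq.core_esa h Y Z hYZ.1 hYZ.2.1 hYZ.2.2
    exact hcase.imp (fun hc => ⟨τ, ⟨hτ, h0⟩, W, V, ⟨hW, hV, hWV⟩, hc⟩)
      (fun hc => ⟨τ, ⟨hτ, h0⟩, W, V, ⟨hW, hV, hWV⟩, hc⟩)
  · obtain ⟨Y, Z, hY, hZ, hYZ, h1, h2⟩ := realize h hτ.1 hτ.2 W V hWV.1 hWV.2.1 hWV.2.2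
    exact ⟨Y, Z, ⟨hY, hZ, hYZ⟩, h1, h2⟩

end Pool.Agent.Results.MP_15d71b_an.Decompositions
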