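import Pool.Agent.Lib.MP_15d71b_an.F6b
import Pool.Agent.Lib.MP_15d71b_an.Sq.A8

/-!
# ESA spaces whose zero-sum blocks satisfy two-sided `ℓ_p` estimates are primary

Let `e` be an ESA basis of the real Banach space `X`, and let `p > 0`, `C` be such that all finite
sequences `f_0, ..., f_{m-1}` of successive blocks of the basis whose coefficients sum to zero
satisfy `∑ ‖f_j‖^p ≤ C ‖∑ f_j‖^p` and `‖∑ f_j‖^p ≤ C ∑ ‖f_j‖^p`. Then `X` is primary.

Idea of the proof. Every monotone map `r : ℕ → ℕ` induces a contraction `e_i ↦ e_{r i}` (merging two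
coefficients of different signs does not increase the norm: average over the insertion of zeros
between them, then merge). For a projection `P`, let `γ` be the iterated ultrafilter limit of
the tail sums of `P e_j`; then some compression `M P J` (`J e_j = e_{p_j}`, `M` the block sums along
sparse intervals) is close to `γ I`, and one of `γ`, `1 - γ` is at least `1/2` in absolute value. Hence
there is a partition `τ` of `ℕ` into intervals such that one summand is `X × W` and the other is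
`V`, where `W ⊕ V` is the space `K_τ` of the vectors which have sum zero on every block. Finally
`X ≃ X × K_t` for the partition `t` which contains infinitely many copies of every block of `τ`, `K_t`
is an `ℓ_p` sum of copies of `K_τ` by the hypothesis, and a swindle gives `K_t ≃ W × K_t`, so
`X × W ≃ X`.
-/

set_option autoImplicit false

namespace Pool.Agent.Results.MP_15d71b_an.LpBlocksPrimary

open Pool.Agent.MP_15d71b_an

/-- Every Banach space with an ESA basis whose finite sequences of successive zero-sum blocks satisfy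
two-sided `ℓ_p` estimates for some `p > 0` is primary. -/
theorem result (X : Type) [NormedAddCommGroup X] [NormedSpace ℝ X] [CompleteSpace X] (e : ℕ → X)
    (H1 : ∀ x : X, ∃! a : ℕ → ℝ,
      Filter.Tendsto (fun N : ℕ => ∑ i ∈ Finset.range N, a i • e i) Filter.atTop (nhds x))
    (H2 : ∀ (a : ℕ → ℝ) (N k : ℕ), k + 1 < N → 0 ≤ a k * a (k + 1) →
      ‖∑ i ∈ Finset.range k, a i • e i + (a k + a (k + 1)) • e k
          + ∑ i ∈ Finset.Ico (k + 2) N, a i • e (i - 1)‖
        = ‖∑ i ∈ Finset.range N, a i • e i‖)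
    (p C : ℝ) (hp : 0 < p)
    (H3 : ∀ (m : ℕ) (τ : ℕ → ℕ) (a : ℕ → ℝ), StrictMono τ →
      (∀ j, j < m → ∑ i ∈ Finset.Ico (τ j) (τ (j + 1)), a i = 0) →
      ∑ j ∈ Finset.range m, ‖∑ i ∈ Finset.Ico (τ j) (τ (j + 1)), a i • e i‖ ^ p
          ≤ C * ‖∑ j ∈ Finset.range m, ∑ i ∈ Finset.Ico (τ j) (τ (j + 1)), a i • e i‖ ^ p ∧
        ‖∑ j ∈ Finset.range m, ∑ i ∈ Finset.Ico (τ j) (τ (j + 1)), a i • e i‖ ^ p
          ≤ C * ∑ j ∈ Finset.range m, ‖∑ i ∈ Finset.Ico (τ j) (τ (j + 1)), a i • e i‖ ^ p) :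
    ∀ Y Z : Submodule ℝ X, IsClosed (Y : Set X) → IsClosed (Z : Set X) → IsCompl Y Z →
      Nonempty (X ≃L[ℝ] Y) ∨ Nonempty (X ≃L[ℝ] Z) := by
  intro Y Z hY hZ hYZ
  have h : ESA e := ⟨H1, H2⟩
  have hP : PEst e p (max C 0) := by
    intro m τ a hτ ha
    obtain ⟨h1, h2⟩ := H3 m τ a hτ ha
    refine ⟨h1.trans (mul_le_mul_of_nonneg_right (le_max_left _ _)
      (Real.rpow_nonneg (norm_nonneg _) _)), h2.trans (mul_le_mul_of_nonneg_right
      (le_max_left _ _) (Finset.sum_nonneg fun j _ => Real.rpow_nonneg (norm_nonneg _) _))⟩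
  obtain ⟨τ, hτ, h0, W, V, hW, hV, hWV, hcase⟩ :=
    Pool.Agent.Lib.MP_15d71b_an.Sq.core_esa h Y Z hY hZ hYZ
  obtain ⟨φ⟩ := absorb h hp (le_max_right _ _) hP hτ h0 W V hW hV hWV
  rcases hcase with ⟨⟨ψ⟩, -⟩ | ⟨⟨ψ⟩, -⟩
  · exact Or.inl ⟨(ψ.trans φ).symm⟩
  · exact Or.inr ⟨(ψ.trans φ).symm⟩

end Pool.Agent.Results.MP_15d71b_an.LpBlocksPrimary
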