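import Pool.Agent.Lib.MP_15d71b_an.G7

/-!
# Exactly one summand of an ESA space contains the whole space

Let `X` be a space with an ESA basis whose differences `e_{2j} - e_{2j+1}` have no lower `ℓ_1` estimate
and unbounded sums (i.e. outside of the two classical cases of `ℓ_1` and `c_0`). In every
decomposition `X = Y ⊕ Z` exactly one of the summands contains an isomorphic copy of `X`, and it even
contains a complemented one: one of `Y`, `Z` is isomorphic to `X × W` for some Banach space `W`, and `X`
does not embed into the other one. In particular `X` is not isomorphic to `X × X`.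

Idea of the proof: the other summand is isomorphic to a subspace of a zero-sum block space
(`Decompositions`), and `X` does not embed into a zero-sum block space (see
`AbsorptionCriterion`).
-/

set_option autoImplicit false

namespace Pool.Agent.Results.MP_15d71b_an.OneSummandContains

open Pool.Agent.MP_15d71b_an

/-- In every decomposition of a space with an ESA basis (outside of the `ℓ_1` and `c_0` cases)
exactly one of the summands contains a copy of the whole space. -/
theorem result (X : Type) [NormedAddCommGroup X] [NormedSpace ℝ X] [CompleteSpace X] (e : ℕ → X)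
    (h : ESA e) (hl1 : NoL1 e) (hc0 : NoC0 e) (Y Z : Submodule ℝ X) (hYZ : IsDecomp Y Z) :
    (Embeds X Y ∧ ¬ Embeds X Z) ∨ (Embeds X Z ∧ ¬ Embeds X Y) := by
  obtain ⟨τ, hτ, h0, W, V, hW, hV, hWV, hcase⟩ :=
    Pool.Agent.Lib.MP_15d71b_an.Sq.core_esa h Y Z hYZ.1 hYZ.2.1 hYZ.2.2
  have key : ∀ U : Submodule ℝ X, (U ≃L[ℝ] X × W) → Embeds X U := by
    intro U ψ
    refine ⟨(ψ.symm : (X × W) →L[ℝ] U).comp (ContinuousLinearMap.inl ℝ X W),
      ‖(ψ : U →L[ℝ] X × W)‖, fun x => ?_⟩
    have h2 := (ψ : U →L[ℝ] X × W).le_opNorm (ψ.symm (x, 0))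
    have h3 : (ψ : U →L[ℝ] X × W) (ψ.symm (x, 0)) = (x, 0) := ψ.apply_symm_apply (x, 0)
    rw [h3] at h2
    exact (norm_fst_le ((x, 0) : X × W)).trans h2
  rcases hcase with ⟨⟨φ⟩, ⟨ψ⟩⟩ | ⟨⟨φ⟩, ⟨ψ⟩⟩
  · exact Or.inl ⟨key Y φ, fun hA => no_copy h hl1 hc0 hτ h0 ψ hA⟩
  · exact Or.inr ⟨key Z φ, fun hA => no_copy h hl1 hc0 hτ h0 ψ hA⟩

end Pool.Agent.Results.MP_15d71b_an.OneSummandContains
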